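import Pool.Agent.K9h34.KE.Num
import Pool.Agent.Y375.FD.Upper

/-!
# A single level of an arrangement of lines with a prescribed set of directions

`height`, `level`, `kLevel`, `IsVertex` and `complexity` are defined in
`Pool/Agent/KLev/Levels.lean` (namespace `KLev.Levels`): a line is a pair (slope, intercept), the
`k`-level is the closure of the set of points on the lines with exactly `k` lines strictly below,
and its complexity is the number of the points where it passes from one line to another.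
-/

namespace Pool.Agent.Results.MP_a08d0a_co.DirectionsAsymptotic

open KLev.Levels

/-- no three lines of `Γ` pass through a common point -/
def NoThree (Γ : Finset (ℝ × ℝ)) : Prop :=
  ∀ l ∈ Γ, ∀ m ∈ Γ, ∀ j ∈ Γ, l ≠ m → l ≠ j → m ≠ j →
    ∀ x : ℝ, ¬ (height l x = height m x ∧ height m x = height j x)

/-- **Theorem.** Let `T` be any set of `D ≥ 2` slopes and let `m = min (k, n - k)`.  The maximal
complexity of the `k`-level of `n` lines with slopes in `T` is `(1 + o(1)) * 2 * (D - 1) * m`,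
uniformly for `D ≤ exp (o(√(log m)))`: for every `ε > 0` there is a `c > 0` such that, whenever
`D ≤ exp (c * √(log m))`, every such set of lines has complexity at most
`(1 + ε) * (2 * (D - 1) * m)`, and some such set of lines, no three of them concurrent, has
complexity at least `(1 - ε) * (2 * (D - 1) * m)`. -/
theorem result : ∀ ε : ℝ, 0 < ε → ∃ c : ℝ, 0 < c ∧ ∀ (T : Finset ℝ) (n k : ℕ), 2 ≤ T.card →
    (T.card : ℝ) ≤ Real.exp (c * √(Real.log ((min k (n - k) : ℕ) : ℝ))) →
    (∀ Γ : Finset (ℝ × ℝ), Γ.card = n → (∀ l ∈ Γ, l.1 ∈ T) →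
      (complexity Γ k : ℝ) ≤
        (1 + ε) * (2 * ((T.card : ℝ) - 1) * ((min k (n - k) : ℕ) : ℝ))) ∧
    ∃ Γ : Finset (ℝ × ℝ), Γ.card = n ∧ (∀ l ∈ Γ, l.1 ∈ T) ∧ NoThree Γ ∧
      (1 - ε) * (2 * ((T.card : ℝ) - 1) * ((min k (n - k) : ℕ) : ℝ)) ≤ complexity Γ k := by
  classical
  intro ε hε
  obtain ⟨c, hc, H⟩ := Pool.Agent.K9h34.KE.lower ε hε
  refine ⟨c, hc, fun T n k hT hTc => ?_⟩
  obtain ⟨h1, Γ, g1, g2, g3, g4⟩ := H T n k hT hTc
  refine ⟨fun Γ' hn hΓ' => ?_, Γ, g1, g2, g3, g4⟩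
  have h2 := Pool.Agent.Y375.FD.upper Γ' k
  rw [hn] at h2
  have h3 : (Γ'.image Prod.fst).card ≤ T.card := by
    apply Finset.card_le_card
    intro x hx
    rw [Finset.mem_image] at hx
    obtain ⟨l, hl, rfl⟩ := hx
    exact hΓ' l hl
  have h4 : complexity Γ' k ≤ (T.card - 1) * (2 * min k (n - k) + 1) := by
    refine h2.trans (Nat.mul_le_mul ?_ ?_)
    · have h5 : ((Γ'.image Prod.fst).card - 1) ≤ T.card - 1 := by omega
      convert h5
    · omega
  have h5 : (complexity Γ' k : ℝ) ≤ ((T.card : ℝ) - 1) * (2 * ((min k (n - k) : ℕ) : ℝ) + 1) := by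
    have h6 : ((complexity Γ' k : ℕ) : ℝ) ≤ (((T.card - 1) * (2 * min k (n - k) + 1) : ℕ) : ℝ) := by
      exact_mod_cast h4
    rw [Nat.cast_mul, Nat.cast_sub (by omega)] at h6
    simpa using h6
  refine h5.trans ?_
  have hD : (0:ℝ) ≤ (T.card : ℝ) - 1 := by
    have : (2:ℝ) ≤ T.card := by exact_mod_cast hT
    linarith
  have h7 : (2 * ((min k (n - k) : ℕ) : ℝ) + 1) ≤ (1 + ε) * (2 * ((min k (n - k) : ℕ) : ℝ)) := by
    linarith
  calc ((T.card : ℝ) - 1) * (2 * ((min k (n - k) : ℕ) : ℝ) + 1)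
      ≤ ((T.card : ℝ) - 1) * ((1 + ε) * (2 * ((min k (n - k) : ℕ) : ℝ))) :=
        mul_le_mul_of_nonneg_left h7 hD
    _ = _ := by ring

end Pool.Agent.Results.MP_a08d0a_co.DirectionsAsymptotic
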