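import Pool.Agent.K9h77.RL.Big

/-! Superlinear levels of independent random lines: for all `n` and `k` with `k₀ ≤ k ≤ n / 2` there
is a law of random lines with no atoms on lines for which the expected complexity of the `k`-level
of `n` independent lines is at least `n k ^ exp (-4 √(log log k))`. -/

set_option autoImplicit false

namespace Pool.Agent.Results.MP_a08d0a_co.RandomLinesAllLevels

open MeasureTheory Pool.Agent.K9h77.RL
open scoped ENNReal

theorem result : ∃ k₀ : ℕ, ∀ n k : ℕ, k₀ ≤ k → 2 * k ≤ n →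
    ∃ μ : Measure (ℝ × ℝ), IsProbabilityMeasure μ ∧
      (∀ a b d : ℝ, (a ≠ 0 ∨ b ≠ 0) → μ {y | a * y.1 + b * y.2 = d} = 0) ∧
      ENNReal.ofReal (n * (k : ℝ) ^ Real.exp (-4 * √(Real.log (Real.log k)))) ≤
        expPsi μ n k := by
  obtain ⟨k₀, h⟩ := big_levels
  refine ⟨k₀, fun n k h1 h2 => ?_⟩
  obtain ⟨μ, g1, g2, -, g4⟩ := h n k h1 h2
  exact ⟨μ, g1, g2, g4⟩

end Pool.Agent.Results.MP_a08d0a_co.RandomLinesAllLevels
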