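import Pool.Agent.K9h77.RL.One2

/-! One law of random lines for all `n`: for every `0 < α < 1` there is a law of random lines with
no atoms on lines such that, for all large `n`, the expected complexity of the `⌊α n⌋`-level of `n`
independent lines with this law is at least `n ^ (1 + exp (-4 √(log log n)))`. -/

set_option autoImplicit false

namespace Pool.Agent.Results.MP_a08d0a_co.RandomLinesOneLaw

open MeasureTheory Pool.Agent.K9h77.RL
open scoped ENNReal

theorem result (α : ℝ) (h0 : 0 < α) (h1 : α < 1) :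
    ∃ μ : Measure (ℝ × ℝ), IsProbabilityMeasure μ ∧
      (∀ a b d : ℝ, (a ≠ 0 ∨ b ≠ 0) → μ {y | a * y.1 + b * y.2 = d} = 0) ∧
      ∃ n₀ : ℕ, ∀ n ≥ n₀,
        ENNReal.ofReal ((n : ℝ) ^ (1 + Real.exp (-4 * √(Real.log (Real.log n))))) ≤
          expPsi μ n ⌊α * n⌋₊ :=
  one_law h0 h1

end Pool.Agent.Results.MP_a08d0a_co.RandomLinesOneLaw
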