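import Pool.Agent.K9h77.RL.Big

/-! The levels of independent random lines are at least as complex as the worst levels of
arrangements with `√k` lines below instead of `k`: for all `n` and `k` with `k₀ ≤ k ≤ n / 2` there
is a law of random lines with no atoms on lines for which the expected complexity of the `k`-level
of `n` independent lines is at least `c √k e_{⌊√k⌋}(⌊⌊√k⌋ n / k⌋)`. -/

set_option autoImplicit false

namespace Pool.Agent.Results.MP_a08d0a_co.RandomLinesTransfer

open MeasureTheory Pool.Agent.K9h77.RL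
open scoped ENNReal

theorem result : ∃ c : ℝ, 0 < c ∧ ∃ k₀ : ℕ, ∀ n k : ℕ, k₀ ≤ k → 2 * k ≤ n →
    ∃ μ : Measure (ℝ × ℝ), IsProbabilityMeasure μ ∧
      (∀ a b d : ℝ, (a ≠ 0 ∨ b ≠ 0) → μ {y | a * y.1 + b * y.2 = d} = 0) ∧
      ENNReal.ofReal (c * (√k * KLev.Levels.e (Nat.sqrt k) (Nat.sqrt k * n / k))) ≤
        expPsi μ n k := by
  obtain ⟨k₀, h⟩ := big_levels
  refine ⟨Real.exp (-6400) / 16, by positivity, k₀, fun n k h1 h2 => ?_⟩
  obtain ⟨μ, g1, g2, g3, -⟩ := h n k h1 h2
  exact ⟨μ, g1, g2, g3⟩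

end Pool.Agent.Results.MP_a08d0a_co.RandomLinesTransfer
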